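import Pool.Agent.NH28.AB.Nef

set_option autoImplicit false

/-!
# Semiampleness of nef sheaves on quotients `(A × F) / G`

Let `A = V / Λ` be an abelian variety (or a complex torus), `F` a normal projective variety with free
class group `Cl(F) = ℤ^ρ`, so that `H^1(F, O_F) = 0`, and `X = (A × F) / G`, where a finite group `G`
acts diagonally, with arbitrary fixed points. By the decomposition theorem every klt variety `X` with
torsion canonical class is of this form, `F` being a product of irreducible Calabi-Yau and symplectic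
varieties. (The canonical class plays no role in the theorem.) Suppose that `H^1(X, O_X) = 0`.

(1) Let `𝓛` be a nef reflexive sheaf of rank one on `X`, and let `deg` be its restriction to `F`, a
class which is invariant under `G`. If `O_F(m deg)` is generated by its sections then so is the power
`𝓛^{[M]}`, `M = bound d N * m`, where `d = dim A` and `N` is the order of the finite group of
automorphisms of the ring `R` of `F` which occur in the group `Γ` that defines `X`.

(2) Every nef sheaf on `X` is semiample if and only if every nef class of `F` which is invariant under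
`G` is semiample.

(3) So every nef sheaf on `X` is semiample if the nef cone of `F` is spanned by finitely many
semiample classes.

Thus the question for `X` is reduced to `F`, which has no torus factor. For a point `F` this is the
case of the quotients of abelian varieties, which is a theorem of the starting files
(`Pool.Agent.R189.SY.uniform`). The proof: a power of the factor of automorphy of `𝓛` gives a line
bundle on `A / G`, the Chern form of which is semidefinite, and which is semiample because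
`H^1(X, O_X) = 0`; its sections are multiplied by norms of sections of multiples of `deg`. The
invariant nef classes of `F` are limits of averages of semiample classes.

`latt`, `IsTorusQuotient` are defined in `Pool.Agent.W594.SYZ.Defs2`; `IsHermitian` in
`Pool.Agent.W594.SYZ.TQDefs`; `HOneZero` in `Pool.Agent.TH735.AQ.Defs`; `cone` in
`Pool.Agent.Y167.ConeDef`; `Cl`, `Semistable`, `SemiampleF`, `IsNefPolyhedral`, `Induces`, `Grp`,
`base`, `Inv`, `IsQuotient`, `Sheaf`, `IsPowSection`, `IsSemiample`, `IsChern`, `IsClass`, `N1`,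
`coneHull`, `semiample` and `nefCone` in `Pool.Agent.X324.CF.Defs`; `nefConeF`, `NefF`,
`GeneratedF`, `IsProjective`, `IsNef`, `Generated`, `autCard` and `bound` in
`Pool.Agent.NH28.AB.Defs`.
-/

namespace Pool.Agent.Results.MP_cda8c3_ag.ProductQuotients

open Pool.Agent.TH735.AQ Pool.Agent.X324.CF Pool.Agent.NH28.AB

theorem result {V R : Type*} [NormedAddCommGroup V] [NormedSpace ℂ V] [FiniteDimensional ℂ V]
    [CommRing R] [IsDomain R] [Algebra ℂ R] {ρ : ℕ} (𝒜 : Cl ρ → Submodule ℂ R)
    [GradedAlgebra 𝒜] (u : Cl ρ) (hF : IsProjective 𝒜 u) (Γ : Grp V R)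
    (hQ : IsQuotient 𝒜 u Γ) (h01 : HOneZero (base Γ)) :
    (∀ 𝓛 : Sheaf 𝒜 Γ, IsNef u 𝓛 → ∀ m : ℕ, GeneratedF 𝒜 u (m • 𝓛.deg) →
      Generated u 𝓛 (bound (Module.finrank ℂ V) (autCard Γ) * m)) ∧
    ((∀ 𝓛 : Sheaf 𝒜 Γ, IsNef u 𝓛 → 𝓛.IsSemiample u) ↔
      ∀ β : Cl ρ, Inv 𝒜 Γ β → NefF 𝒜 u β → SemiampleF 𝒜 u β) ∧
    ((∃ (n : ℕ) (w : Fin n → Cl ρ), IsNefPolyhedral 𝒜 w u) →
      ∀ 𝓛 : Sheaf 𝒜 Γ, IsNef u 𝓛 → 𝓛.IsSemiample u) := by
  have hb : 0 < bound (Module.finrank ℂ V) (autCard Γ) := by
    have := hQ.fin_gal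
    have h1 : 0 < ∏ j ∈ Finset.range (Module.finrank ℂ V + 1), Pool.Agent.R189.SY.glc j :=
      Finset.prod_pos fun j _ => Pool.Agent.R189.SY.glc_pos j
    have h2 : 0 < Nat.card (gal Γ) := Nat.card_pos
    exact Nat.mul_pos (Nat.mul_pos (by norm_num) (pow_pos h1 _)) h2
  have h1 : ∀ 𝓛 : Sheaf 𝒜 Γ, IsNef u 𝓛 → ∀ m : ℕ, GeneratedF 𝒜 u (m • 𝓛.deg) →
      Generated u 𝓛 (bound (Module.finrank ℂ V) (autCard Γ) * m) := by
    intro 𝓛 hn m hg
    obtain ⟨⟨H, hH, hH0⟩, -⟩ := nef_data hF hQ hn
    exact gen_of_nef hQ h01 hH hH0 hg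
  have h2 : (∀ β : Cl ρ, Inv 𝒜 Γ β → NefF 𝒜 u β → SemiampleF 𝒜 u β) →
      ∀ 𝓛 : Sheaf 𝒜 Γ, IsNef u 𝓛 → 𝓛.IsSemiample u := by
    intro h 𝓛 hn
    obtain ⟨m, hm, hg⟩ := h _ 𝓛.inv (nef_data hF hQ hn).2
    exact ⟨_, Nat.mul_pos hb hm, h1 𝓛 hn m hg⟩
  refine ⟨h1, ⟨fun h β hβ hn => ?_, h2⟩, ?_⟩
  · exact semiample_of_ofDeg hF hQ hβ (h _ (ofDeg_nef hF hQ hβ hn))
  · rintro ⟨n, w, D⟩
    exact h2 fun β _ hn => semiample_of_poly D hn

end Pool.Agent.Results.MP_cda8c3_ag.ProductQuotients
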